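import Pool.Agent.H56.HM.Sup

/-!
Open cups: the definition by convex hulls and a description by orientations.
-/

set_option autoImplicit false
open scoped Classical

namespace Pool.Agent.H56.HM

open Pool.Agent.H2.HM

/-- `K` is a chain: different first coordinates, and no point of `P` above a segment of `K`. -/
def Chain (P K : Finset (ℝ × ℝ)) : Prop :=
  (∀ a ∈ K, ∀ b ∈ K, a ≠ b → a.1 ≠ b.1) ∧
  ∀ a ∈ K, ∀ b ∈ K, ∀ p ∈ P, a.1 < b.1 → a.1 ≤ p.1 → p.1 ≤ b.1 → br (b - a) (p - a) ≤ 0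

lemma Chain.mono {P K P' K' : Finset (ℝ × ℝ)} (h : Chain P K) (hK : K' ⊆ K) (hP : P' ⊆ P) :
    Chain P' K' :=
  ⟨fun a ha b hb => h.1 a (hK ha) b (hK hb),
    fun a ha b hb p hp => h.2 a (hK ha) b (hK hb) p (hP hp)⟩

lemma br_eq (a b z : ℝ × ℝ) :
    br (b - a) (z - a) = (b.1 - a.1) * (z.2 - a.2) - (b.2 - a.2) * (z.1 - a.1) := by
  unfold br
  simp only [Prod.fst_sub, Prod.snd_sub]

lemma hull_ge {s : Set (ℝ × ℝ)} {α β γ : ℝ} (h : ∀ y ∈ s, γ ≤ α * y.1 + β * y.2) :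
    ∀ z ∈ convexHull ℝ s, γ ≤ α * z.1 + β * z.2 := by
  intro z hz
  have hc : Convex ℝ {z : ℝ × ℝ | γ ≤ α * z.1 + β * z.2} := by
    intro x hx y hy s t hs ht hst
    simp only [Set.mem_ofPred_eq, Prod.fst_add, Prod.snd_add, Prod.smul_fst, Prod.smul_snd,
      smul_eq_mul] at hx hy ⊢
    have e : γ = s * γ + t * γ := by rw [← add_mul, hst, one_mul]
    rw [e]
    nlinarith [mul_le_mul_of_nonneg_left hx hs, mul_le_mul_of_nonneg_left hy ht]
  exact convexHull_min (fun y hy => h y hy) hc hz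

lemma hull_gt {s : Set (ℝ × ℝ)} {x : ℝ × ℝ} {α β : ℝ}
    (h : ∀ y ∈ s, α * x.1 + β * x.2 < α * y.1 + β * y.2) : x ∉ convexHull ℝ s := by
  intro hx
  have hc : Convex ℝ {z : ℝ × ℝ | α * x.1 + β * x.2 < α * z.1 + β * z.2} := by
    intro y hy z hz s t hs ht hst
    simp only [Set.mem_ofPred_eq, Prod.fst_add, Prod.snd_add, Prod.smul_fst, Prod.smul_snd,
      smul_eq_mul] at hy hz ⊢
    rcases eq_or_lt_of_le hs with h0 | h0
    · have ht1 : t = 1 := by linarith
      rw [← h0, ht1]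
      linarith
    · have e : α * x.1 + β * x.2 = s * (α * x.1 + β * x.2) + t * (α * x.1 + β * x.2) := by
        rw [← add_mul, hst, one_mul]
      rw [e]
      nlinarith [mul_lt_mul_of_pos_left hy h0, mul_le_mul_of_nonneg_left hz.le ht]
  have : α * x.1 + β * x.2 < α * x.1 + β * x.2 := convexHull_min (fun y hy => h y hy) hc hx
  exact lt_irrefl _ this

lemma hull_br_nonneg {s : Set (ℝ × ℝ)} {a b : ℝ × ℝ} (h : ∀ y ∈ s, 0 ≤ br (b - a) (y - a)) :
    ∀ z ∈ convexHull ℝ s, 0 ≤ br (b - a) (z - a) := by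
  intro z hz
  have := hull_ge (s := s) (α := -(b.2 - a.2)) (β := b.1 - a.1)
    (γ := (b.1 - a.1) * a.2 - (b.2 - a.2) * a.1) (fun y hy => by
      have := h y hy
      rw [br_eq] at this
      linarith) z hz
  rw [br_eq]
  linarith

lemma hull_br_nonpos {s : Set (ℝ × ℝ)} {a b : ℝ × ℝ} (h : ∀ y ∈ s, br (b - a) (y - a) ≤ 0) :
    ∀ z ∈ convexHull ℝ s, br (b - a) (z - a) ≤ 0 := by
  intro z hz
  have := hull_ge (s := s) (α := b.2 - a.2) (β := -(b.1 - a.1))
    (γ := -((b.1 - a.1) * a.2 - (b.2 - a.2) * a.1)) (fun y hy => by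
      have := h y hy
      rw [br_eq] at this
      linarith) z hz
  rw [br_eq]
  linarith

/-- The point of the segment over a given first coordinate. -/
lemma seg_point {a b : ℝ × ℝ} (hab : a.1 < b.1) {x : ℝ} (h1 : a.1 ≤ x) (h2 : x ≤ b.1) :
    ∃ w ∈ segment ℝ a b, w.1 = x ∧ br (b - a) (w - a) = 0 := by
  have hd : 0 < b.1 - a.1 := by linarith
  refine ⟨a + ((x - a.1) / (b.1 - a.1)) • (b - a), ?_, ?_, ?_⟩
  · rw [segment_eq_image']
    refine ⟨(x - a.1) / (b.1 - a.1), ⟨div_nonneg (by linarith) hd.le, ?_⟩, rfl⟩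
    rw [div_le_one hd]
    linarith
  · simp only [Prod.fst_add, Prod.smul_fst, Prod.fst_sub, smul_eq_mul]
    field_simp
    ring
  · rw [br_eq]
    simp only [Prod.fst_add, Prod.smul_fst, Prod.fst_sub, Prod.snd_add, Prod.smul_snd,
      Prod.snd_sub, smul_eq_mul]
    field_simp
    ring

/-- Open cups are chains. -/
lemma IsOpenCup.chain {P X : Finset (ℝ × ℝ)} (h : IsOpenCup P X) : Chain P X := by
  obtain ⟨hXP, hcup, hop⟩ := h
  have key : ∀ w ∈ convexHull ℝ (X : Set (ℝ × ℝ)), ∀ p ∈ P, p.1 = w.1 → p.2 ≤ w.2 := by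
    intro w hw p hp hpw
    have hcomp : IsCompact (convexHull ℝ (X : Set (ℝ × ℝ)) ∩ {v | v.1 = w.1}) :=
      ((Finset.finite_toSet X).isCompact_convexHull (𝕜 := ℝ)).inter_right
        (isClosed_eq continuous_fst continuous_const)
    obtain ⟨z, hz, hmin⟩ := hcomp.exists_isMinOn (f := fun v : ℝ × ℝ => v.2) ⟨w, hw, rfl⟩
      continuous_snd.continuousOn
    have hzl : z ∈ lower X := by
      refine ⟨hz.1, fun v hv hvz => ?_⟩
      exact hmin ⟨hv, hvz.trans hz.2⟩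
    have h1 : z.2 ≤ w.2 := hmin ⟨hw, rfl⟩
    have h2 := hop p hp z hzl
    by_contra hcon
    push Not at hcon
    exact h2 ⟨hpw.trans hz.2.symm, lt_of_le_of_lt h1 hcon⟩
  have hsub : ∀ a ∈ X, a ∈ convexHull ℝ (X : Set (ℝ × ℝ)) := fun a ha =>
    subset_convexHull ℝ _ ha
  refine ⟨?_, ?_⟩
  · intro a ha b hb hne h1
    have k1 := key b (hsub b hb) a (hXP ha) h1
    have k2 := key a (hsub a ha) b (hXP hb) h1.symm
    exact hne (Prod.ext h1 (le_antisymm k1 k2))
  · intro a ha b hb p hp hab h1 h2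
    obtain ⟨w, hw, hw1, hw2⟩ := seg_point hab h1 h2
    have hwX : w ∈ convexHull ℝ (X : Set (ℝ × ℝ)) :=
      (convex_convexHull ℝ _).segment_subset (hsub a ha) (hsub b hb) hw
    have hk := key w hwX p hp hw1.symm
    rw [br_eq] at hw2 ⊢
    rw [hw1] at hw2
    have hd : 0 < b.1 - a.1 := by linarith
    nlinarith [mul_le_mul_of_nonneg_left hk hd.le]

/-- All points of a chain are above the line of two consecutive ones. -/
lemma chain_above {P K : Finset (ℝ × ℝ)} (hKP : K ⊆ P) (h : Chain P K) {a b : ℝ × ℝ}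
    (ha : a ∈ K) (hb : b ∈ K) (hab : a.1 < b.1) (hcons : ∀ c ∈ K, c.1 ≤ a.1 ∨ b.1 ≤ c.1) :
    ∀ c ∈ K, 0 ≤ br (b - a) (c - a) := by
  intro c hc
  rcases hcons c hc with h1 | h1
  · have := h.2 c hc b hb a (hKP ha) (by linarith) h1 hab.le
    rw [br_eq] at this ⊢
    linarith
  · have := h.2 a ha c hc b (hKP hb) (by linarith) hab.le h1
    rw [br_eq] at this ⊢
    linarith

/-- The last point before `x`. -/
lemma exists_prev {K : Finset (ℝ × ℝ)} {x : ℝ} (h : ∃ c ∈ K, c.1 < x) :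
    ∃ a ∈ K, a.1 < x ∧ ∀ c ∈ K, c.1 < x → c.1 ≤ a.1 := by
  obtain ⟨c, hc, hcx⟩ := h
  obtain ⟨a, ha, hmax⟩ := Finset.exists_max_image (K.filter fun c => c.1 < x)
    (fun c => c.1) ⟨c, Finset.mem_filter.2 ⟨hc, hcx⟩⟩
  rw [Finset.mem_filter] at ha
  exact ⟨a, ha.1, ha.2, fun d hd hdx => hmax d (Finset.mem_filter.2 ⟨hd, hdx⟩)⟩

/-- The first point after `x`. -/
lemma exists_next {K : Finset (ℝ × ℝ)} {x : ℝ} (h : ∃ c ∈ K, x < c.1) :
    ∃ a ∈ K, x < a.1 ∧ ∀ c ∈ K, x < c.1 → a.1 ≤ c.1 := by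
  obtain ⟨c, hc, hcx⟩ := h
  obtain ⟨a, ha, hmin⟩ := Finset.exists_min_image (K.filter fun c => x < c.1)
    (fun c => c.1) ⟨c, Finset.mem_filter.2 ⟨hc, hcx⟩⟩
  rw [Finset.mem_filter] at ha
  exact ⟨a, ha.1, ha.2, fun d hd hdx => hmin d (Finset.mem_filter.2 ⟨hd, hdx⟩)⟩

lemma chain_convPos {P K : Finset (ℝ × ℝ)} (gp : GP P) (hKP : K ⊆ P) (h : Chain P K) :
    ConvPos K := by
  rw [convPos_iff]
  intro x hx
  by_cases hl : ∃ c ∈ K, c.1 < x.1
  · by_cases hr : ∃ c ∈ K, x.1 < c.1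
    · obtain ⟨a, ha, hax, hamax⟩ := exists_prev hl
      obtain ⟨b, hb, hxb, hbmin⟩ := exists_next hr
      intro hcon
      have hab : a.1 < b.1 := hax.trans hxb
      have h1 : ∀ c ∈ K.erase x, 0 ≤ br (b - a) (c - a) := by
        refine chain_above (P := P) ((Finset.erase_subset _ _).trans hKP)
          (h.mono (Finset.erase_subset _ _) (Finset.Subset.refl _))
          (Finset.mem_erase.2 ⟨by rintro rfl; exact lt_irrefl _ hax, ha⟩)
          (Finset.mem_erase.2 ⟨by rintro rfl; exact lt_irrefl _ hxb, hb⟩) hab ?_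
        intro c hc
        rw [Finset.mem_erase] at hc
        rcases lt_or_gt_of_ne (h.1 c hc.2 x hx hc.1) with hcx | hcx
        · exact Or.inl (hamax c hc.2 hcx)
        · exact Or.inr (hbmin c hc.2 hcx)
      have h2 := hull_br_nonneg (s := (K : Set (ℝ × ℝ)) \ {x}) (a := a) (b := b)
        (fun y hy => h1 y (Finset.mem_erase.2 ⟨hy.2, hy.1⟩)) x hcon
      have h3 := h.2 a ha b hb x (hKP hx) hab hax.le hxb.le
      refine gp a (hKP ha) b (hKP hb) x (hKP hx) ?_ ?_ ?_ (le_antisymm h3 h2)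
      · rintro rfl; exact lt_irrefl _ hab
      · rintro rfl; exact lt_irrefl _ hax
      · rintro rfl; exact lt_irrefl _ hxb
    · push Not at hr
      refine hull_gt (α := -1) (β := 0) fun y hy => ?_
      have h1 := hr y hy.1
      have h2 : y.1 ≠ x.1 := h.1 y hy.1 x hx hy.2
      have h3 := lt_of_le_of_ne h1 h2
      linarith
  · push Not at hl
    refine hull_gt (α := 1) (β := 0) fun y hy => ?_
    have h1 := hl y hy.1
    have h2 : y.1 ≠ x.1 := h.1 y hy.1 x hx hy.2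
    have h3 := lt_of_le_of_ne h1 h2.symm
    linarith

/-- Chains are open cups. -/
lemma Chain.isOpenCup {P K : Finset (ℝ × ℝ)} (gp : GP P) (hKP : K ⊆ P) (h : Chain P K)
    (h2 : 2 ≤ K.card) : IsOpenCup P K := by
  have hne : K.Nonempty := Finset.card_pos.1 (by omega)
  obtain ⟨a, ha, hamin⟩ := Finset.exists_min_image K (fun c => c.1) hne
  obtain ⟨b, hb, hbmax⟩ := Finset.exists_max_image K (fun c => c.1) hne
  have hab : a.1 < b.1 := by
    obtain ⟨c, hc, d, hd, hcd⟩ := Finset.one_lt_card.1 (by omega : 1 < K.card)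
    have h1 := h.1 c hc d hd hcd
    rcases lt_or_gt_of_ne h1 with h3 | h3
    · exact lt_of_le_of_lt (hamin c hc) (lt_of_lt_of_le h3 (hbmax d hd))
    · exact lt_of_le_of_lt (hamin d hd) (lt_of_lt_of_le h3 (hbmax c hc))
  have hd : 0 < b.1 - a.1 := by linarith
  have hx1 : ∀ z ∈ convexHull ℝ (K : Set (ℝ × ℝ)), a.1 ≤ z.1 := by
    intro z hz
    have := hull_ge (s := (K : Set (ℝ × ℝ))) (α := 1) (β := 0) (γ := a.1)
      (fun y hy => by have := hamin y hy; simpa using this) z hz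
    linarith
  have hx2 : ∀ z ∈ convexHull ℝ (K : Set (ℝ × ℝ)), z.1 ≤ b.1 := by
    intro z hz
    have := hull_ge (s := (K : Set (ℝ × ℝ))) (α := -1) (β := 0) (γ := -b.1)
      (fun y hy => by have : y.1 ≤ b.1 := hbmax y hy; linarith) z hz
    linarith
  have hbelow : ∀ z ∈ convexHull ℝ (K : Set (ℝ × ℝ)), br (b - a) (z - a) ≤ 0 :=
    hull_br_nonpos (fun y hy => h.2 a ha b hb y (hKP hy) hab (hamin y hy) (hbmax y hy))
  have hseg : segment ℝ a b ⊆ convexHull ℝ (K : Set (ℝ × ℝ)) :=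
    (convex_convexHull ℝ _).segment_subset (subset_convexHull ℝ _ ha) (subset_convexHull ℝ _ hb)
  have hsegbr : ∀ z ∈ segment ℝ a b, br (b - a) (z - a) = 0 := by
    intro z hz
    rw [segment_eq_image'] at hz
    obtain ⟨t, _, rfl⟩ := hz
    rw [br_eq]
    simp only [Prod.fst_add, Prod.smul_fst, Prod.fst_sub, Prod.snd_add, Prod.smul_snd,
      Prod.snd_sub, smul_eq_mul]
    ring
  refine ⟨hKP, ⟨chain_convPos gp hKP h, a, ha, b, hb, ?_, ?_⟩, ?_⟩
  · rintro rfl; exact lt_irrefl _ hab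
  · ext z
    constructor
    · rintro ⟨hz, hzmax⟩
      obtain ⟨w, hw, hw1, hw2⟩ := seg_point hab (hx1 z hz) (hx2 z hz)
      have k1 := hzmax w (hseg hw) hw1
      have k2 := hbelow z hz
      rw [br_eq] at k2 hw2
      rw [hw1] at hw2
      have k3 : z.2 ≤ w.2 := by
        by_contra hcon
        push Not at hcon
        nlinarith [mul_lt_mul_of_pos_left hcon hd]
      have hzw : z = w := Prod.ext hw1.symm (le_antisymm k3 k1)
      rw [hzw]
      exact hw
    · intro hz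
      refine ⟨hseg hz, fun w hw hwz => ?_⟩
      have k1 := hsegbr z hz
      have k2 := hbelow w hw
      rw [br_eq] at k1 k2
      rw [hwz] at k2
      by_contra hcon
      push Not at hcon
      nlinarith [mul_lt_mul_of_pos_left hcon hd]
  · rintro p hp z ⟨hz, _⟩ ⟨hpz, hlt⟩
    have cons : ∀ c ∈ K, ∀ e ∈ K, c.1 < e.1 → (∀ y ∈ K, y.1 ≤ c.1 ∨ e.1 ≤ y.1) → c.1 ≤ z.1 →
        z.1 ≤ e.1 → False := by
      intro c hc e he hce hcons hcz hze
      have k1 := hull_br_nonneg (chain_above hKP h hc he hce hcons) z hz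
      have k2 := h.2 c hc e he p hp hce (by rw [hpz]; exact hcz) (by rw [hpz]; exact hze)
      rw [br_eq] at k1 k2
      rw [hpz] at k2
      have hd' : 0 < e.1 - c.1 := by linarith
      nlinarith [mul_lt_mul_of_pos_left hlt hd']
    rcases eq_or_lt_of_le (hx2 z hz) with hzb | hzb
    · obtain ⟨c, hc, hcb, hcmax⟩ := exists_prev (x := b.1) ⟨a, ha, hab⟩
      refine cons c hc b hb hcb (fun y hy => ?_) (by rw [hzb]; exact hcb.le) hzb.le
      rcases lt_or_ge y.1 b.1 with h1 | h1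
      · exact Or.inl (hcmax y hy h1)
      · exact Or.inr h1
    · obtain ⟨e, he, hze, hemin⟩ := exists_next (x := z.1) ⟨b, hb, hzb⟩
      obtain ⟨c, hc, hce, hcmax⟩ := exists_prev (x := e.1)
        ⟨a, ha, lt_of_le_of_lt (hx1 z hz) hze⟩
      refine cons c hc e he hce (fun y hy => ?_) ?_ hze.le
      · rcases lt_or_ge y.1 e.1 with h1 | h1
        · exact Or.inl (hcmax y hy h1)
        · exact Or.inr h1
      · by_contra hcon
        push Not at hcon
        exact absurd (hemin c hc hcon) (not_le.2 hce)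

end Pool.Agent.H56.HM
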