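import Mathlib

/-!
Definitions for the hand-in on MP_2feeed_co: holes, open cups, and the numbers `h'_k(n)`, `h''_k(n)`.
-/

set_option autoImplicit false
open scoped Classical

namespace Pool.Agent.H56.HM

/-- General position: no three distinct points of `P` are collinear. -/
def GenPos (P : Finset (ℝ × ℝ)) : Prop :=
  ∀ a ∈ P, ∀ b ∈ P, ∀ c ∈ P, a ≠ b → a ≠ c → b ≠ c → ¬ Collinear ℝ ({a, b, c} : Set (ℝ × ℝ))

/-- `X` is in convex position: no point of `X` lies in the convex hull of other points of `X`. -/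
def ConvPos (X : Finset (ℝ × ℝ)) : Prop :=
  ConvexIndependent ℝ (Subtype.val : ((X : Set (ℝ × ℝ)) : Type) → ℝ × ℝ)

/-- `X` is a hole of `P`: a subset in convex position whose convex hull has no point of `P` in its
interior. A `k`-hole is a hole with `k` points. -/
def IsHole (P X : Finset (ℝ × ℝ)) : Prop :=
  X ⊆ P ∧ ConvPos X ∧ ∀ p ∈ P, p ∉ interior (convexHull ℝ (X : Set (ℝ × ℝ)))

/-- The `k`-holes of `P`. -/
noncomputable def holes (k : ℕ) (P : Finset (ℝ × ℝ)) : Finset (Finset (ℝ × ℝ)) :=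
  P.powerset.filter fun X => X.card = k ∧ IsHole P X

/-- The upper boundary of the convex hull of `X`. -/
def upper (X : Finset (ℝ × ℝ)) : Set (ℝ × ℝ) :=
  {z | z ∈ convexHull ℝ (X : Set (ℝ × ℝ)) ∧
    ∀ w ∈ convexHull ℝ (X : Set (ℝ × ℝ)), w.1 = z.1 → w.2 ≤ z.2}

/-- The lower boundary of the convex hull of `X`. -/
def lower (X : Finset (ℝ × ℝ)) : Set (ℝ × ℝ) :=
  {z | z ∈ convexHull ℝ (X : Set (ℝ × ℝ)) ∧
    ∀ w ∈ convexHull ℝ (X : Set (ℝ × ℝ)), w.1 = z.1 → z.2 ≤ w.2}

/-- `X` is a cup: it is in convex position and the upper boundary of its convex hull is one edge. -/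
def IsCup (X : Finset (ℝ × ℝ)) : Prop :=
  ConvPos X ∧ ∃ a ∈ X, ∃ b ∈ X, a ≠ b ∧ upper X = segment ℝ a b

/-- `X` is an open cup of `P`: no point of `P` is strictly above a point of the lower boundary. -/
def IsOpenCup (P X : Finset (ℝ × ℝ)) : Prop :=
  X ⊆ P ∧ IsCup X ∧ ∀ p ∈ P, ∀ z ∈ lower X, ¬ (p.1 = z.1 ∧ z.2 < p.2)

/-- The `n`-point sets in general position without a `(k+1)`-hole. -/
def Adm (k n : ℕ) (P : Finset (ℝ × ℝ)) : Prop :=
  P.card = n ∧ GenPos P ∧ ∀ X, IsHole P X → X.card ≠ k + 1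

/-- `h'_k(n)`: the largest number of `k`-holes of an `n`-point set in general position without a
`(k+1)`-hole. -/
noncomputable def h1 (k n : ℕ) : ℕ :=
  sSup {m | ∃ P, Adm k n P ∧ (holes k P).card = m}

/-- `h''_k(n)`: the same, for sets which moreover have no open `4`-cup. -/
noncomputable def h2 (k n : ℕ) : ℕ :=
  sSup {m | ∃ P, Adm k n P ∧ (∀ X, IsOpenCup P X → X.card ≠ 4) ∧ (holes k P).card = m}

end Pool.Agent.H56.HM
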