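import Pool.Agent.H56.HM.Cup

/-!
A far point above: `k`-holes are kept, no `(k+1)`-hole is made, and open cups grow by at most one
point.
-/

set_option autoImplicit false
open scoped Classical

namespace Pool.Agent.H56.HM

open Pool.Agent.H2.HM

/-- Adding a far point with a further property (proof of `add_far` by helper2, adapted). -/
theorem add_far_ev {k : ℕ} {P : Finset (ℝ × ℝ)} (gp : GP P) {u : ℝ × ℝ} (hu0 : u ≠ 0) (hu : Gen P u)
    (hop : ∀ K ⊆ P, K.card = k → ∃ a ∈ K, ∃ c ∈ K, ∃ p ∈ P, Ab u a p c)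
    (hno : ∀ Y, ¬ Hole (k + 1) P Y) {q : ℝ × ℝ → Prop}
    (hq : ∀ᶠ t : ℝ in Filter.atTop, q (t • u)) :
    ∃ x, q x ∧ x ∉ P ∧ GP (insert x P) ∧ (∀ Y, Hole k P Y → Hole k (insert x P) Y) ∧
      ∀ Y, ¬ Hole (k + 1) (insert x P) Y := by
  have e1 : ∀ᶠ t : ℝ in Filter.atTop, ∀ a ∈ P, ∀ p ∈ P, ∀ c ∈ P, Ab u a p c →
      p ∈ interior (convexHull ℝ ({a, c, t • u} : Set (ℝ × ℝ))) := by
    rw [Filter.eventually_all_finset]
    intro a _
    rw [Filter.eventually_all_finset]
    intro p _
    rw [Filter.eventually_all_finset]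
    intro c _
    by_cases h : Ab u a p c
    · filter_upwards [ev_tri h] with t ht _
      exact ht
    · exact Filter.Eventually.of_forall fun t h' => absurd h' h
  have hpos : 0 < u.1 * u.1 + u.2 * u.2 := by
    by_contra hcon
    have h1 : u.1 = 0 := by nlinarith [mul_self_nonneg u.1, mul_self_nonneg u.2]
    have h2 : u.2 = 0 := by nlinarith [mul_self_nonneg u.1, mul_self_nonneg u.2]
    exact hu0 (Prod.ext h1 h2)
  have e2 : ∀ᶠ t : ℝ in Filter.atTop, ∀ p ∈ P,
      0 < t * (u.1 * u.1 + u.2 * u.2) + -(p.1 * u.1 + p.2 * u.2) := by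
    rw [Filter.eventually_all_finset]
    intro p _
    exact ev_pos hpos
  have e3 : ∀ᶠ t : ℝ in Filter.atTop, ∀ p ∈ P, ∀ q ∈ P, p ≠ q →
      t * br (q - p) u + - br (q - p) p ≠ 0 := by
    rw [Filter.eventually_all_finset]
    intro p hp
    rw [Filter.eventually_all_finset]
    intro q hq
    by_cases h : p ≠ q
    · filter_upwards [ev_ne (r := - br (q - p) p) (hu q hq p hp (Ne.symm h))] with t ht _
      exact ht
    · exact Filter.Eventually.of_forall fun t h' => absurd h' h
  obtain ⟨t, k1, k2, k3, k4⟩ := (e1.and (e2.and (e3.and hq))).exists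
  set x : ℝ × ℝ := t • u with hx
  have hxP : x ∉ P := by
    intro h
    have h1 := k2 x h
    have h2 : x.1 * u.1 + x.2 * u.2 = t * (u.1 * u.1 + u.2 * u.2) := by
      rw [hx]
      simp only [Prod.smul_fst, Prod.smul_snd, smul_eq_mul]
      ring
    rw [h2] at h1
    linarith
  have hline : ∀ p ∈ P, ∀ q ∈ P, p ≠ q → br (q - p) (x - p) ≠ 0 := by
    intro p hp q hq hne
    have e : br (q - p) (x - p) = t * br (q - p) u + - br (q - p) p := by
      rw [hx]
      unfold br
      simp only [Prod.fst_sub, Prod.snd_sub, Prod.smul_fst, Prod.smul_snd, smul_eq_mul]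
      ring
    rw [e]
    exact k3 p hp q hq hne
  have hout : x ∉ convexHull ℝ (P : Set (ℝ × ℝ)) := by
    intro h
    have hc : Convex ℝ {z : ℝ × ℝ | z.1 * u.1 + z.2 * u.2 < t * (u.1 * u.1 + u.2 * u.2)} := by
      intro z hz y hy α β hα hβ hαβ
      simp only [Set.mem_ofPred_eq, Prod.fst_add, Prod.snd_add, Prod.smul_fst, Prod.smul_snd,
        smul_eq_mul] at hz hy ⊢
      have hβ' : β = 1 - α := by linarith
      subst hβ'
      rcases eq_or_lt_of_le hα with h0 | h0
      · rw [← h0]
        linarith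
      · have i1 : α * (z.1 * u.1 + z.2 * u.2) < α * (t * (u.1 * u.1 + u.2 * u.2)) :=
          mul_lt_mul_of_pos_left hz h0
        have i2 : (1 - α) * (y.1 * u.1 + y.2 * u.2) ≤ (1 - α) * (t * (u.1 * u.1 + u.2 * u.2)) :=
          mul_le_mul_of_nonneg_left hy.le hβ
        nlinarith
    have h1 : convexHull ℝ (P : Set (ℝ × ℝ)) ⊆
        {z : ℝ × ℝ | z.1 * u.1 + z.2 * u.2 < t * (u.1 * u.1 + u.2 * u.2)} := by
      refine convexHull_min (fun p hp => ?_) hc
      have := k2 p hp
      simp only [Set.mem_ofPred_eq]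
      linarith
    have h2 := h1 h
    simp only [Set.mem_ofPred_eq] at h2
    rw [hx] at h2
    simp only [Prod.smul_fst, Prod.smul_snd, smul_eq_mul] at h2
    linarith
  refine ⟨x, k4, hxP, ?_, ?_, ?_⟩
  · -- general position
    intro a ha b hb c hc hab hac hbc h
    rw [Finset.mem_insert] at ha hb hc
    rcases ha with rfl | ha
    · have hb' := hb.resolve_left hab.symm
      have hc' := hc.resolve_left hac.symm
      apply hline b hb' c hc' hbc
      have e : br (c - b) (x - b) = br (b - x) (c - x) := by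
        unfold br
        simp only [Prod.fst_sub, Prod.snd_sub]
        ring
      rw [e]
      exact h
    · rcases hb with rfl | hb
      · have hc' := hc.resolve_left hbc.symm
        apply hline a ha c hc' hac
        have e : br (c - a) (x - a) = - br (x - a) (c - a) := by
          unfold br
          ring
        rw [e, h, neg_zero]
      · rcases hc with rfl | hc
        · exact hline a ha b hb hab h
        · exact gp a ha b hb c hc hab hac hbc h
  · -- old holes
    rintro Y ⟨g1, g2, g3, g4⟩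
    refine ⟨g1.trans (Finset.subset_insert _ _), g2, g3, fun p hp => ?_⟩
    rw [Finset.mem_insert] at hp
    rcases hp with rfl | hp
    · intro h
      exact hout (convexHull_mono (Finset.coe_subset.2 g1) (interior_subset h))
    · exact g4 p hp
  · -- new holes
    rintro Y ⟨g1, g2, g3, g4⟩
    by_cases hxY : x ∈ Y
    · have hK : Y.erase x ⊆ P := by
        intro p hp
        rw [Finset.mem_erase] at hp
        exact (Finset.mem_insert.1 (g1 hp.2)).resolve_left hp.1
      obtain ⟨a, ha, c, hc, p, hp, hab⟩ := hop (Y.erase x) hK (by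
        rw [Finset.card_erase_of_mem hxY, g2]
        rfl)
      have hin := k1 a (hK ha) p hp c (hK hc) hab
      have hpa : p ≠ a := by
        rintro rfl
        exact lt_irrefl _ hab.1
      have hpc : p ≠ c := by
        rintro rfl
        exact lt_irrefl _ hab.2.1
      have hpx : p ≠ x := by
        rintro rfl
        exact hxP hp
      by_cases hpY : p ∈ Y
      · apply g3 p hpY
        refine convexHull_mono ?_ (interior_subset hin)
        intro z hz
        rcases hz with rfl | rfl | rfl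
        · exact ⟨(Finset.mem_erase.1 ha).2, fun h => hpa h.symm⟩
        · exact ⟨(Finset.mem_erase.1 hc).2, fun h => hpc h.symm⟩
        · exact ⟨hxY, fun h => hpx h.symm⟩
      · apply g4 p (Finset.mem_insert_of_mem hp)
        refine interior_mono (convexHull_mono ?_) hin
        intro z hz
        rcases hz with rfl | rfl | rfl
        · exact (Finset.mem_erase.1 ha).2
        · exact (Finset.mem_erase.1 hc).2
        · exact hxY
    · refine hno Y ⟨?_, g2, g3, fun p hp => g4 p (Finset.mem_insert_of_mem hp)⟩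
      intro p hp
      refine (Finset.mem_insert.1 (g1 hp)).resolve_left ?_
      rintro rfl
      exact hxY hp


/-- For large `m` the order by `X m` refines the order by the first coordinate. -/
lemma exists_lex (P : Finset (ℝ × ℝ)) :
    ∃ m : ℝ, ∀ a ∈ P, ∀ b ∈ P, a.1 < b.1 → X m a < X m b := by
  have e : ∀ᶠ m : ℝ in Filter.atTop, ∀ a ∈ P, ∀ b ∈ P, a.1 < b.1 → X m a < X m b := by
    rw [Filter.eventually_all_finset]
    intro a _
    rw [Filter.eventually_all_finset]
    intro b _
    by_cases h : a.1 < b.1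
    · filter_upwards [ev_pos (s := b.1 - a.1) (r := a.2 - b.2) (by linarith)] with m hm _
      unfold X
      linarith
    · exact Filter.Eventually.of_forall fun t h' => absurd h' h
  exact e.exists

lemma X_tie (m : ℝ) {a b : ℝ × ℝ} (h : a.1 = b.1) : X m a < X m b ↔ b.2 < a.2 := by
  unfold X
  rw [h]
  constructor
  · intro h1
    linarith
  · intro h1
    linarith

lemma lex_gen {P : Finset (ℝ × ℝ)} {m : ℝ} (hm : ∀ a ∈ P, ∀ b ∈ P, a.1 < b.1 → X m a < X m b) :
    ∀ p ∈ P, ∀ q ∈ P, p ≠ q → X m p ≠ X m q := by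
  intro p hp q hq hne h
  rcases lt_trichotomy p.1 q.1 with h1 | h1 | h1
  · exact absurd h (hm p hp q hq h1).ne
  · apply hne
    refine Prod.ext h1 ?_
    unfold X at h
    rw [h1] at h
    linarith
  · exact absurd h (hm q hq p hp h1).ne'

/-- A set without points above it in the direction `(1, m)`, `m` large, is a chain up to its first
two points. -/
lemma opn_chain {P K : Finset (ℝ × ℝ)} (gp : GP P) (hKP : K ⊆ P) {m : ℝ}
    (hm : ∀ a ∈ P, ∀ b ∈ P, a.1 < b.1 → X m a < X m b) (hop : Opn P K (1, m)) :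
    ∃ K' ⊆ K, K.card ≤ K'.card + 2 ∧ Chain P K' := by
  have hinj := lex_gen hm
  by_cases hne : K.Nonempty
  swap
  · refine ⟨∅, Finset.empty_subset _, ?_, ?_, ?_⟩
    · rw [Finset.not_nonempty_iff_eq_empty] at hne
      rw [hne]
      simp
    · intro a ha
      exact absurd ha (Finset.notMem_empty a)
    · intro a ha
      exact absurd ha (Finset.notMem_empty a)
  obtain ⟨e0, h0, h0min⟩ := Finset.exists_min_image K (X m) hne
  by_cases hne1 : (K.erase e0).Nonempty
  swap
  · refine ⟨∅, Finset.empty_subset _, ?_, ?_, ?_⟩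
    · rw [Finset.not_nonempty_iff_eq_empty] at hne1
      have := Finset.card_erase_add_one h0
      rw [hne1] at this
      simp at this
      omega
    · intro a ha
      exact absurd ha (Finset.notMem_empty a)
    · intro a ha
      exact absurd ha (Finset.notMem_empty a)
  obtain ⟨e1, h1, h1min⟩ := Finset.exists_min_image (K.erase e0) (X m) hne1
  have h1K : e1 ∈ K := (Finset.mem_erase.1 h1).2
  have h10 : e1 ≠ e0 := (Finset.mem_erase.1 h1).1
  have hlt01 : X m e0 < X m e1 :=
    lt_of_le_of_ne (h0min e1 h1K) (hinj e0 (hKP h0) e1 (hKP h1K) h10.symm)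
  have hK' : ∀ a ∈ (K.erase e0).erase e1, a ∈ K ∧ X m e1 < X m a := by
    intro a ha
    rw [Finset.mem_erase] at ha
    have haK : a ∈ K := (Finset.mem_erase.1 ha.2).2
    exact ⟨haK, lt_of_le_of_ne (h1min a ha.2) (hinj e1 (hKP h1K) a (hKP haK) (Ne.symm ha.1))⟩
  have H : ∀ a ∈ K, ∀ c ∈ K, ∀ p ∈ P, X m a < X m p → X m p < X m c →
      br (c - a) (p - a) ≤ 0 := by
    intro a ha c hc p hp hap hpc
    by_contra hcon
    push Not at hcon
    refine hop a ha c hc p hp ⟨?_, ?_, hcon⟩
    · rw [br_pos, br_pos]; exact hap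
    · rw [br_pos, br_pos]; exact hpc
  have hle : ∀ a ∈ P, ∀ b ∈ P, X m a < X m b → a.1 ≤ b.1 := by
    intro a ha b hb hab
    by_contra hcon
    push Not at hcon
    exact absurd (hm b hb a ha hcon) (not_lt.2 hab.le)
  have T : ∀ a ∈ (K.erase e0).erase e1, e1.1 < a.1 := by
    intro a ha
    obtain ⟨haK, hlt⟩ := hK' a ha
    rcases eq_or_lt_of_le (hle e1 (hKP h1K) a (hKP haK) hlt) with h2 | h2
    swap
    · exact h2
    exfalso
    have h3 : a.2 < e1.2 := (X_tie m h2).1 hlt
    have h4 := H e0 h0 a haK e1 (hKP h1K) hlt01 hlt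
    rcases eq_or_lt_of_le (hle e0 (hKP h0) e1 (hKP h1K) hlt01) with h5 | h5
    · refine gp e0 (hKP h0) e1 (hKP h1K) a (hKP haK) h10.symm ?_ ?_ ?_
      · rintro rfl
        exact lt_irrefl _ (hlt01.trans hlt)
      · rintro rfl
        exact lt_irrefl _ hlt
      · rw [br_eq, h5, h2]
        ring
    · rw [br_eq] at h4
      have h6 : 0 < e1.1 - e0.1 := by linarith
      rw [← h2] at h4
      nlinarith [mul_lt_mul_of_pos_left h3 h6]
  have T2 : ∀ a ∈ (K.erase e0).erase e1, ∀ p ∈ P, p.1 = a.1 → p.2 ≤ a.2 := by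
    intro a ha p hp hpa
    by_contra hcon
    push Not at hcon
    obtain ⟨haK, hlt⟩ := hK' a ha
    have h2 := T a ha
    have h3 := H e1 h1K a haK p hp (hm e1 (hKP h1K) p hp (by rw [hpa]; exact h2))
      ((X_tie m hpa).2 hcon)
    rw [br_eq, hpa] at h3
    have h6 : 0 < a.1 - e1.1 := by linarith
    nlinarith [mul_lt_mul_of_pos_left hcon h6]
  refine ⟨(K.erase e0).erase e1, (Finset.erase_subset _ _).trans (Finset.erase_subset _ _), ?_,
    ?_, ?_⟩
  · have c0 := Finset.card_erase_add_one h0
    have c1 := Finset.card_erase_add_one h1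
    omega
  · intro a ha b hb hne2 hab
    have k1 := T2 a ha b (hKP (hK' b hb).1) hab.symm
    have k2 := T2 b hb a (hKP (hK' a ha).1) hab
    exact hne2 (Prod.ext hab (le_antisymm k2 k1))
  · intro a ha b hb p hp hab hap hpb
    rcases eq_or_lt_of_le hap with h2 | h2
    · have h3 := T2 a ha p hp h2.symm
      rw [br_eq, ← h2]
      have h6 : 0 < b.1 - a.1 := by linarith
      nlinarith [mul_le_mul_of_nonneg_left h3 h6.le]
    · rcases eq_or_lt_of_le hpb with h3 | h3
      · have h4 := T2 b hb p hp h3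
        rw [br_eq, h3]
        have h6 : 0 < b.1 - a.1 := by linarith
        nlinarith [mul_le_mul_of_nonneg_left h4 h6.le]
      · exact H a (hK' a ha).1 b (hK' b hb).1 p hp (hm a (hKP (hK' a ha).1) p hp h2)
          (hm p hp b (hKP (hK' b hb).1) h3)

/-- **One more point, one more point in the cups.** -/
lemma adm_shift {r k n : ℕ} (hr : 2 ≤ r) (hrk : r + 2 ≤ k) {P : Finset (ℝ × ℝ)} (hP : Adm k n P)
    (hcup : ∀ X, IsOpenCup P X → X.card ≠ r) :
    ∃ Q, Adm k (n + 1) Q ∧ (∀ X, IsOpenCup Q X → X.card ≠ r + 1) ∧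
      (holes k P).card ≤ (holes k Q).card := by
  rw [adm_iff] at hP
  obtain ⟨hn, gp, hno⟩ := hP
  obtain ⟨m, hm⟩ := exists_lex P
  have hinj := lex_gen hm
  have hop : ∀ K ⊆ P, K.card = k → ∃ a ∈ K, ∃ c ∈ K, ∃ p ∈ P, Ab (1, m) a p c := by
    intro K hKP hK
    by_contra hcon
    push Not at hcon
    have hopn : Opn P K (1, m) := fun a ha c hc p hp => hcon a ha c hc p hp
    obtain ⟨K', hK'K, hcard, hch⟩ := opn_chain gp hKP hm hopn
    obtain ⟨K2, hK2, hK2c⟩ := Finset.exists_subset_card_eq (s := K') (n := r) (by omega)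
    have h1 := (hch.mono hK2 (Finset.Subset.refl P)).isOpenCup gp
      (hK2.trans (hK'K.trans hKP)) (by omega)
    exact hcup K2 h1 hK2c
  have hu0 : ((1 : ℝ), m) ≠ 0 := by
    intro h
    have := congrArg Prod.fst h
    simp at this
  have hq : ∀ᶠ t : ℝ in Filter.atTop, ∀ p ∈ P, p.1 < (t • ((1 : ℝ), m)).1 := by
    rw [Filter.eventually_all_finset]
    intro p _
    filter_upwards [Filter.eventually_gt_atTop p.1] with t ht
    simpa using ht
  obtain ⟨x, hxq, hx, g1, g2, g3⟩ := add_far_ev gp hu0 (gen_pos hinj) hop hno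
    (q := fun x => ∀ p ∈ P, p.1 < x.1) hq
  refine ⟨insert x P, ?_, ?_, ?_⟩
  · rw [adm_iff]
    refine ⟨?_, g1, g3⟩
    rw [Finset.card_insert_of_notMem hx, hn]
  · intro Y hY hYc
    have hch := hY.chain
    have hne : Y.Nonempty := Finset.card_pos.1 (by omega)
    obtain ⟨b, hb, hbmax⟩ := Finset.exists_max_image Y (fun c => c.1) hne
    have hsub : Y.erase b ⊆ P := by
      intro y hy
      rw [Finset.mem_erase] at hy
      rcases Finset.mem_insert.1 (hY.1 hy.2) with h1 | h1
      · exfalso
        rcases Finset.mem_insert.1 (hY.1 hb) with h2 | h2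
        · exact hy.1 (h1.trans h2.symm)
        · have h3 := hxq b h2
          have h4 : y.1 ≤ b.1 := hbmax y hy.2
          rw [h1] at h4
          linarith
      · exact h1
    have hcard : (Y.erase b).card = r := by
      rw [Finset.card_erase_of_mem hb, hYc]
      rfl
    exact hcup _ ((hch.mono (Finset.erase_subset _ _) (Finset.subset_insert _ _)).isOpenCup gp
      hsub (by omega)) hcard
  · refine Finset.card_le_card fun Y hY => ?_
    rw [mem_holes] at hY ⊢
    exact g2 Y hY

end Pool.Agent.H56.HM
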