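import Pool.Agent.H56.HM.Defs
import Pool.Agent.H2.HM.Far

/-!
From sets to the numbers `h'_k(n)`, `h''_k(n)`.
-/

set_option autoImplicit false
open scoped Classical

namespace Pool.Agent.H56.HM

open Pool.Agent.H2.HM

lemma genPos_iff (P : Finset (ℝ × ℝ)) : GenPos P ↔ GP P := by
  unfold GenPos GP
  constructor
  · intro h a ha b hb c hc hab hac hbc
    have := h a ha b hb c hc hab hac hbc
    rwa [col_iff hab] at this
  · intro h a ha b hb c hc hab hac hbc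
    rw [col_iff hab]
    exact h a ha b hb c hc hab hac hbc

lemma convPos_iff (X : Finset (ℝ × ℝ)) :
    ConvPos X ↔ ∀ x ∈ X, x ∉ convexHull ℝ ((X : Set (ℝ × ℝ)) \ {x}) := by
  unfold ConvPos
  rw [convexIndependent_set_iff_notMem_convexHull_sdiff]
  rfl

lemma hole_iff (k : ℕ) (P X : Finset (ℝ × ℝ)) :
    Hole k P X ↔ X.card = k ∧ IsHole P X := by
  unfold Hole IsHole
  rw [convPos_iff]
  tauto

lemma mem_holes (k : ℕ) (P X : Finset (ℝ × ℝ)) : X ∈ holes k P ↔ Hole k P X := by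
  rw [hole_iff]
  unfold holes
  rw [Finset.mem_filter, Finset.mem_powerset]
  constructor
  · exact fun h => h.2
  · exact fun h => ⟨h.2.1, h⟩

lemma adm_iff (k n : ℕ) (P : Finset (ℝ × ℝ)) :
    Adm k n P ↔ P.card = n ∧ GP P ∧ ∀ Y, ¬ Hole (k + 1) P Y := by
  unfold Adm
  rw [genPos_iff]
  refine and_congr Iff.rfl (and_congr Iff.rfl (forall_congr' fun Y => ?_))
  rw [hole_iff]
  tauto

/-- Adding a point. -/
lemma adm_insert {k n : ℕ} {P : Finset (ℝ × ℝ)} (hP : Adm k n P) {u : ℝ × ℝ} (hu0 : u ≠ 0)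
    (hu : Gen P u) (hop : ∀ K ⊆ P, K.card = k → ∃ a ∈ K, ∃ c ∈ K, ∃ p ∈ P, Ab u a p c) :
    ∃ Q, Adm k (n + 1) Q ∧ (holes k P).card ≤ (holes k Q).card := by
  rw [adm_iff] at hP
  obtain ⟨hn, gp, hno⟩ := hP
  obtain ⟨x, hx, g1, g2, g3⟩ := add_far gp hu0 hu hop hno
  refine ⟨insert x P, ?_, ?_⟩
  · rw [adm_iff]
    refine ⟨?_, g1, g3⟩
    rw [Finset.card_insert_of_notMem hx, hn]
  · refine Finset.card_le_card fun Y hY => ?_
    rw [mem_holes] at hY ⊢
    exact g2 Y hY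

lemma bdd (k n : ℕ) : BddAbove {m | ∃ P, Adm k n P ∧ (holes k P).card = m} := by
  refine ⟨2 ^ n, ?_⟩
  rintro m ⟨P, hP, rfl⟩
  have h : (holes k P).card ≤ P.powerset.card := Finset.card_le_card (Finset.filter_subset _ _)
  rw [Finset.card_powerset, hP.1] at h
  exact h

end Pool.Agent.H56.HM
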